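import Pool.Agent.H487.EF.Stm
import Pool.Agent.H477.E.Card
import Pool.Graph.R_seed8.Y24.F2

set_option autoImplicit false

/-!
# Project EF (helper487): the statements S_DENX and S_TOTX
-/

open Finset Complex Filter Topology Metric Set MeasureTheory

namespace Pool.Agent.H189.EF

open Pool.Agent.Helper242.KK (FT Ph)
open Pool.Agent.H477.Jen
open Pool.Agent.H477.E
open Pool.Agent.H477.S (LB Mt lt S_HL S_A S_PER S_PROP S_MAX)
open Pool.Agent.H487.ED (Ev)
open Pool.Agent.H487.EF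

noncomputable section

/-- the order of a zero of `ζ` is at least one -/
lemma order_pos {ρ : ℂ} (h1 : ρ ≠ 1) (h0 : riemannZeta ρ = 0) :
    1 ≤ analyticOrderNatAt riemannZeta ρ := by
  have han : AnalyticOnNhd ℂ riemannZeta {z : ℂ | z ≠ 1} := by
    apply DifferentiableOn.analyticOnNhd
    · intro z hz
      exact (differentiableAt_riemannZeta hz).differentiableWithinAt
    · exact isOpen_ne
  have hpre : IsPreconnected {z : ℂ | z ≠ 1} := by
    have : {z : ℂ | z ≠ 1} = {(1 : ℂ)}ᶜ := rfl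
    rw [this]
    exact (isConnected_compl_singleton_of_one_lt_rank (by simp) 1).isPreconnected
  have h2 : (2 : ℂ) ∈ {z : ℂ | z ≠ 1} := by
    simp
  have hz2 : riemannZeta 2 ≠ 0 := riemannZeta_ne_zero_of_one_lt_re (by simp)
  have hne : analyticOrderAt riemannZeta ρ ≠ ⊤ :=
    AnalyticOnNhd.analyticOrderAt_ne_top_of_isPreconnected han hpre h2 h1
      (by rw [(han 2 h2).analyticOrderAt_eq_zero.mpr hz2]; simp)
  have hne0 : analyticOrderAt riemannZeta ρ ≠ 0 := by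
    rw [Ne, (han ρ h1).analyticOrderAt_eq_zero]
    simpa using h0
  have h3 : analyticOrderNatAt riemannZeta ρ ≠ 0 := by
    intro h4
    have h5 := Nat.cast_analyticOrderNatAt hne
    rw [h4] at h5
    exact hne0 h5.symm
  omega

/-- the zeros counted by `Nz` -/
def NS (σ T : ℝ) : Set ℂ := {ρ : ℂ | riemannZeta ρ = 0 ∧ σ < ρ.re ∧ 0 < ρ.im ∧ ρ.im ≤ T}

lemma NS_sub (σ T : ℝ) : NS σ T ⊆ Pool.Agent.Y24.ZZ σ T :=
  fun _ h => ⟨h.1, h.2.1.le, h.2.2.1, h.2.2.2⟩

lemma NS_fin (σ T : ℝ) : (NS σ T).Finite := (Pool.Agent.Y24.ZZ_fin σ T).subset (NS_sub σ T)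

lemma Nz_eq (σ T : ℝ) :
    Nz σ T = ∑ ρ ∈ (NS_fin σ T).toFinset, (analyticOrderNatAt riemannZeta ρ : ℝ) :=
  finsum_mem_eq_finite_toFinset_sum _ (NS_fin σ T)

lemma Nz_le (σ T : ℝ) :
    Nz σ T ≤ ∑ᶠ ρ ∈ Pool.Agent.Y24.ZZ σ T, (analyticOrderNatAt riemannZeta ρ : ℝ) := by
  rw [Nz_eq, finsum_mem_eq_finite_toFinset_sum _ (Pool.Agent.Y24.ZZ_fin σ T)]
  refine Finset.sum_le_sum_of_subset_of_nonneg ?_ (fun _ _ _ => Nat.cast_nonneg _)
  intro ρ hρ
  rw [Set.Finite.mem_toFinset] at hρ ⊢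
  exact NS_sub σ T hρ

lemma card_le_Nz (σ T : ℝ) : ((NS_fin σ T).toFinset.card : ℝ) ≤ Nz σ T := by
  rw [Nz_eq, Finset.card_eq_sum_ones, Nat.cast_sum]
  refine Finset.sum_le_sum fun ρ hρ => ?_
  rw [Set.Finite.mem_toFinset] at hρ
  have h1 : ρ ≠ 1 := by
    rintro rfl
    have := hρ.2.2.1
    simp at this
  exact_mod_cast order_pos h1 hρ.1

lemma Nz_zero {σ T : ℝ} (hσ : 1 ≤ σ) : Nz σ T = 0 := by
  rw [Nz_eq]
  refine Finset.sum_eq_zero fun ρ hρ => ?_
  rw [Set.Finite.mem_toFinset] at hρ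
  exact absurd hρ.1 (riemannZeta_ne_zero_of_one_le_re (hσ.trans hρ.2.1.le))

/-- powers of the logarithm are small -/
lemma big (C a b : ℝ) (hab : a < b) : ∃ T0 : ℝ, 1 ≤ T0 ∧ ∀ T : ℝ, T0 ≤ T →
    C * (3 * T) ^ a * Real.log (3 * T) ^ 2 ≤ T ^ b := by
  set s := (b - a) / 4 with hs
  have hs0 : 0 < s := by rw [hs]; linarith
  set K := |C| * 3 ^ b / s ^ 2 with hK
  obtain ⟨X0, hX0⟩ := Filter.eventually_atTop.1
    ((tendsto_rpow_atTop (by linarith : 0 < 2 * s)).eventually_ge_atTop K)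
  refine ⟨max 1 X0, le_max_left _ _, fun T hT => ?_⟩
  have hT1 : 1 ≤ T := (le_max_left _ _).trans hT
  have hT2 : X0 ≤ T := (le_max_right _ _).trans hT
  set X := 3 * T with hX
  have hXT : T ≤ X := by rw [hX]; linarith
  have hX1 : 1 ≤ X := hT1.trans hXT
  have hXp : 0 < X := by linarith
  have h1 : K ≤ X ^ (2 * s) := hX0 X (hT2.trans hXT)
  have h2 : Real.log X ≤ X ^ s / s := Real.log_le_rpow_div hXp.le hs0
  have h3 : 0 ≤ Real.log X := Real.log_nonneg hX1
  have h4 : Real.log X ^ 2 ≤ (X ^ s / s) ^ 2 := pow_le_pow_left₀ h3 h2 2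
  have h5 : (X ^ s / s) ^ 2 = X ^ (2 * s) / s ^ 2 := by
    rw [div_pow, ← Real.rpow_natCast (X ^ s) 2, ← Real.rpow_mul hXp.le]
    congr 2
    push_cast
    ring
  have h3b : (0:ℝ) < 3 ^ b := Real.rpow_pos_of_pos (by norm_num) b
  have h6 : T ^ b = X ^ b / 3 ^ b := by
    rw [hX, Real.mul_rpow (by norm_num) (by linarith)]
    field_simp
  have h7 : X ^ b = X ^ a * X ^ (2 * s) * X ^ (2 * s) := by
    rw [← Real.rpow_add hXp, ← Real.rpow_add hXp]
    congr 1
    rw [hs]; ring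
  have hXa : 0 ≤ X ^ a := Real.rpow_nonneg hXp.le a
  have hXs : 0 ≤ X ^ (2 * s) := Real.rpow_nonneg hXp.le _
  rw [h6, h7, le_div_iff₀ h3b]
  calc C * X ^ a * Real.log X ^ 2 * 3 ^ b
      ≤ |C| * X ^ a * (X ^ (2 * s) / s ^ 2) * 3 ^ b := by
        rw [← h5]
        have h8 : C * X ^ a ≤ |C| * X ^ a := mul_le_mul_of_nonneg_right (le_abs_self C) hXa
        have h9 : 0 ≤ |C| * X ^ a := mul_nonneg (abs_nonneg C) hXa
        have h10 : C * X ^ a * Real.log X ^ 2 ≤ |C| * X ^ a * (X ^ s / s) ^ 2 :=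
          mul_le_mul h8 h4 (sq_nonneg _) h9
        exact mul_le_mul_of_nonneg_right h10 h3b.le
    _ = X ^ a * X ^ (2 * s) * K := by
        rw [hK]
        field_simp
    _ ≤ X ^ a * X ^ (2 * s) * X ^ (2 * s) :=
        mul_le_mul_of_nonneg_left h1 (mul_nonneg hXa hXs)

lemma one_le_log {T : ℝ} (hT : 1 ≤ T) : 1 ≤ Real.log (3 * T) := by
  rw [Real.le_log_iff_exp_le (by linarith)]
  have := Real.exp_one_lt_d9
  linarith

theorem denx_proof : S_DENX := by
  obtain ⟨C, hC, hden⟩ := Pool.Agent.Y24.density (c := 1) (by norm_num)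
  obtain ⟨T0, hT0, hbig⟩ := big C (996 / 1000) (998 / 1000) (by norm_num)
  refine ⟨1 / 1000, T0, by norm_num, fun T hT x hx => ?_⟩
  have hT1 : 1 ≤ T := hT0.trans hT
  have hTp : 0 < T := by linarith
  rcases le_or_gt 1 (1 / 2 + 2 * x - 1 / 1000) with hσ | hσ
  · rw [Nz_zero hσ, mul_zero]
    exact Real.rpow_nonneg hTp.le _
  · set σ := 1 / 2 + 2 * x - 1 / 1000 with hσd
    have hσ4 : 4 / 1000 ≤ σ - 1 / 2 := by rw [hσd]; linarith
    have h1 : Nz σ (3 * T) ≤ C * (3 * T) ^ (1 - 1 * (σ - 1 / 2)) * Real.log (3 * T) :=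
      (Nz_le σ (3 * T)).trans
        (hden σ (3 * T) (by linarith) hσ.le (by linarith)).2
    have h2 : (3 * T) ^ (1 - 1 * (σ - 1 / 2)) ≤ (3 * T) ^ (996 / 1000 : ℝ) :=
      Real.rpow_le_rpow_of_exponent_le (by linarith) (by linarith)
    have hl1 := one_le_log hT1
    have hl2 : Real.log (3 * T) ≤ Real.log (3 * T) ^ 2 := by nlinarith
    have h3p : 0 ≤ (3 * T) ^ (996 / 1000 : ℝ) := Real.rpow_nonneg (by linarith) _
    have h3 : Nz σ (3 * T) ≤ T ^ (998 / 1000 : ℝ) := by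
      refine h1.trans (le_trans ?_ (hbig T hT))
      have h4 : C * (3 * T) ^ (1 - 1 * (σ - 1 / 2)) ≤ C * (3 * T) ^ (996 / 1000 : ℝ) :=
        mul_le_mul_of_nonneg_left h2 hC.le
      exact mul_le_mul h4 hl2 (by linarith) (mul_nonneg hC.le h3p)
    calc T ^ (1 / 1000 : ℝ) * Nz σ (3 * T) ≤ T ^ (1 / 1000 : ℝ) * T ^ (998 / 1000 : ℝ) :=
          mul_le_mul_of_nonneg_left h3 (Real.rpow_nonneg hTp.le _)
      _ = T ^ (1 - 1 / 1000 : ℝ) := by
          rw [← Real.rpow_add hTp]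
          norm_num

lemma lt_eq {t : ℝ} (ht : 0 < t) : lt t = 1 / 2 * Real.log t - 1 / 2 * Real.log (2 * Real.pi) :=
  lamR_re ht

lemma lt_le {t : ℝ} (ht : 0 < t) : lt t ≤ 1 / 2 * Real.log t := by
  rw [lt_eq ht]
  have : 0 ≤ Real.log (2 * Real.pi) := Real.log_nonneg (by linarith [Real.pi_gt_three])
  linarith

lemma lt_mono {t u : ℝ} (ht : 0 < t) (htu : t ≤ u) : lt t ≤ lt u := by
  rw [lt_eq ht, lt_eq (by linarith)]
  have := Real.log_le_log ht htu
  linarith

/-- the integers near which there is no real zero are few -/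
lemma card_bad {T H : ℝ} (hH : 0 ≤ H) (σ : ℝ) (s : Finset ℕ)
    (hs : ∀ n ∈ s, ∃ ρ ∈ NS σ (3 * T), |ρ.im - n| ≤ H) :
    (s.card : ℝ) ≤ Nz σ (3 * T) * (2 * H + 1) := by
  classical
  choose! g hg1 hg2 using hs
  have h1 : ∀ n ∈ s, g n ∈ (NS_fin σ (3 * T)).toFinset := fun n hn => by
    rw [Set.Finite.mem_toFinset]
    exact hg1 n hn
  rw [Finset.card_eq_sum_card_fiberwise (f := g) (t := (NS_fin σ (3 * T)).toFinset) h1,
    Nat.cast_sum]
  calc ∑ ρ ∈ (NS_fin σ (3 * T)).toFinset, ((s.filter fun n => g n = ρ).card : ℝ)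
      ≤ ∑ _ρ ∈ (NS_fin σ (3 * T)).toFinset, (2 * H + 1) := by
        refine Finset.sum_le_sum fun ρ _ => ?_
        have h2 := Pool.Agent.H477.EU.card_nat_le (s.filter fun n => g n = ρ)
          (x := ρ.im - H) (y := ρ.im + H) (fun n hn => by
            rw [Finset.mem_filter] at hn
            have h3 := abs_le.1 (hg2 n hn.1)
            rw [hn.2] at h3
            constructor
            · linarith [h3.2]
            · linarith [h3.1]) (by linarith)
        linarith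
    _ = ((NS_fin σ (3 * T)).toFinset.card : ℝ) * (2 * H + 1) := by
        rw [Finset.sum_const, nsmul_eq_mul]
    _ ≤ Nz σ (3 * T) * (2 * H + 1) :=
        mul_le_mul_of_nonneg_right (card_le_Nz _ _) (by linarith)

/-- distinct real zeros are counted -/
lemma card_good {T : ℝ} (hT : 0 ≤ T) (k : ℕ) (s : Finset ℕ)
    (hs : ∀ n ∈ s, T + 1 / 4 < n ∧ (n : ℝ) + 1 / 4 ≤ 2 * T ∧
      ∃ x : ℝ, |x - n| ≤ 1 / 4 ∧ iteratedDeriv k (FT Ph) x = 0) :
    (s.card : ℝ) ≤ cnt k (fun _ => True) (2 * T) - cnt k (fun _ => True) T := by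
  classical
  choose! ha hb x hx1 hx2 using hs
  have h1 := cnt_split k (fun _ => True) (X := 2 * T) (Y := T) (by linarith)
  have h2 : (s.card : ℝ) ≤
      ∑ w ∈ cfil (fun w => True ∧ T < w.re) (ZA_fin k (2 * T)).toFinset, ordk k w := by
    have h3 : Set.InjOn (fun n => ((x n : ℝ) : ℂ)) (s : Set ℕ) := by
      intro m hm n hn hmn
      have h4 : x m = x n := by
        have h4' : ((x m : ℝ) : ℂ) = ((x n : ℝ) : ℂ) := hmn
        exact_mod_cast h4'
      have h5 := abs_le.1 (hx1 m hm)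
      have h6 := abs_le.1 (hx1 n hn)
      rw [h4] at h5
      have h7 : (m : ℝ) < n + 1 := by linarith [h5.1, h5.2, h6.1, h6.2]
      have h8 : (n : ℝ) < m + 1 := by linarith [h5.1, h5.2, h6.1, h6.2]
      have h9 : m < n + 1 := by exact_mod_cast h7
      have h10 : n < m + 1 := by exact_mod_cast h8
      omega
    rw [← Finset.card_image_of_injOn h3, Finset.card_eq_sum_ones, Nat.cast_sum]
    calc ∑ w ∈ s.image (fun n => ((x n : ℝ) : ℂ)), ((1 : ℕ) : ℝ)
        ≤ ∑ w ∈ s.image (fun n => ((x n : ℝ) : ℂ)), ordk k w := by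
          refine Finset.sum_le_sum fun w hw => ?_
          obtain ⟨n, hn, rfl⟩ := Finset.mem_image.1 hw
          have := ordk_one k (hx2 n hn)
          push_cast
          exact this
      _ ≤ _ := by
          refine Finset.sum_le_sum_of_subset_of_nonneg ?_ (fun w _ _ => ordk_nonneg k w)
          intro w hw
          obtain ⟨n, hn, rfl⟩ := Finset.mem_image.1 hw
          have h5 := abs_le.1 (hx1 n hn)
          have h6 := ha n hn
          have h7 := hb n hn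
          rw [mem_cfil, Set.Finite.mem_toFinset]
          refine ⟨⟨hx2 n hn, ?_, ?_⟩, trivial, ?_⟩
          · rw [ofReal_re]
            linarith [h5.1]
          · rw [ofReal_re]
            linarith [h5.2]
          · rw [ofReal_re]
            linarith [h5.1]
  rw [h1]
  linarith

theorem totx_proof (hE : S_EVL) (hL : S_LBL) : S_TOTX := by
  classical
  obtain ⟨δ, η, T1, hδ, hη, hev⟩ := hE 1 (1 / 1000) one_pos (by norm_num)
  obtain ⟨T2, hT2, hlb⟩ := hL (1 / 1000) (by norm_num) (by norm_num) δ η hδ hη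
  obtain ⟨C, hC, hden⟩ := Pool.Agent.Y24.density (c := 1) (by norm_num)
  obtain ⟨T3, hT3, hbig⟩ := big (20 * C) (999 / 1000) 1 (by norm_num)
  obtain ⟨T4, hT4⟩ := Filter.eventually_atTop.1
    (Real.isLittleO_log_id_atTop.bound (by norm_num : (0:ℝ) < 1 / 8))
  refine ⟨max (max T1 T2) (max (max T3 T4) 20), fun T hT k hk1 hk2 => ?_⟩
  have hTT1 : T1 ≤ T := ((le_max_left _ _).trans (le_max_left _ _)).trans hT
  have hTT2 : T2 ≤ T := ((le_max_right _ _).trans (le_max_left _ _)).trans hT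
  have hTT3 : T3 ≤ T := (((le_max_left _ _).trans (le_max_left _ _)).trans
    (le_max_right _ _)).trans hT
  have hTT4 : T4 ≤ T := (((le_max_right _ _).trans (le_max_left _ _)).trans
    (le_max_right _ _)).trans hT
  have hT20 : 20 ≤ T := ((le_max_right _ _).trans (le_max_right _ _)).trans hT
  have hTp : 0 < T := by linarith
  have hlogT : 1 ≤ Real.log T := by
    rw [Real.le_log_iff_exp_le hTp]
    have := Real.exp_one_lt_d9
    linarith
  have hlog2T : Real.log (2 * T) ≤ 1 + Real.log T := by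
    rw [Real.log_mul (by norm_num) hTp.ne']
    have := Real.log_two_lt_d9
    linarith
  -- each integer is good or bad
  have key : ∀ n : ℕ, T ≤ n → (n : ℝ) ≤ 2 * T →
      (∃ ρ ∈ NS (1 / 2 + 1 / 1000) (3 * T), |ρ.im - n| ≤ 2 * Real.log (2 * T)) ∨
      ∃ x : ℝ, |x - n| ≤ 1 / 4 ∧ iteratedDeriv k (FT Ph) x = 0 := by
    intro n hn1 hn2
    have hnp : (0:ℝ) < n := by linarith
    have hlogn : Real.log n ≤ Real.log (2 * T) := Real.log_le_log hnp hn2
    by_cases hz : ZF (1 / 1000) n (2 * Real.log n)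
    · right
      have h1 := hlb n (hTT2.trans hn1) hz
      refine (hev n (1 / 1000) (hTT1.trans hn1) (by norm_num) (by norm_num) h1 k ?_ ?_).2
      · have h2 := lt_le hnp
        have h3 : (1 / 1000 + 1 / 1000 : ℝ) * lt n ≤ (1 / 1000 + 1 / 1000) * (1 / 2 * Real.log n) :=
          mul_le_mul_of_nonneg_left h2 (by norm_num)
        refine h3.trans (le_trans ?_ hk1)
        linarith
      · exact hk2.trans (lt_mono hTp hn1)
    · left
      unfold ZF at hz
      push Not at hz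
      obtain ⟨ρ, h1, h2, h3⟩ := hz
      have h4 : Real.log n ≤ n / 8 := by
        have h5 := hT4 n (hTT4.trans hn1)
        rw [Real.norm_eq_abs, id, Real.norm_eq_abs, abs_of_pos hnp] at h5
        linarith [le_abs_self (Real.log (n:ℝ))]
      have h6 := abs_le.1 h3
      refine ⟨ρ, ⟨h1, h2, ?_, ?_⟩, h3.trans (by linarith)⟩
      · linarith [h6.1]
      · linarith [h6.2]
  -- the integers in question
  set N := Finset.Icc (⌊T⌋₊ + 2) (⌊2 * T⌋₊ - 1) with hN
  have hf1 := Nat.floor_le hTp.le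
  have hf2 := Nat.lt_floor_add_one T
  have hf3 := Nat.floor_le (by linarith : 0 ≤ 2 * T)
  have hf4 := Nat.lt_floor_add_one (2 * T)
  have hfl : ⌊T⌋₊ + 3 ≤ ⌊2 * T⌋₊ := by
    have : ((⌊T⌋₊ + 3 : ℕ) : ℝ) < ((⌊2 * T⌋₊ + 1 : ℕ) : ℝ) := by
      push_cast
      linarith
    have h2 : ⌊T⌋₊ + 3 < ⌊2 * T⌋₊ + 1 := by exact_mod_cast this
    omega
  have hNmem : ∀ n ∈ N, T + 1 / 4 < n ∧ (n : ℝ) + 1 / 4 ≤ 2 * T := by
    intro n hn
    rw [hN, Finset.mem_Icc] at hn
    have h1 : ((⌊T⌋₊ + 2 : ℕ) : ℝ) ≤ n := by exact_mod_cast hn.1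
    have h2 : n + 1 ≤ ⌊2 * T⌋₊ := by omega
    have h3 : ((n + 1 : ℕ) : ℝ) ≤ ⌊2 * T⌋₊ := by exact_mod_cast h2
    push_cast at h1 h3
    constructor
    · linarith
    · linarith
  have hNcard : T - 3 ≤ (N.card : ℝ) := by
    have h1 : N.card + (⌊T⌋₊ + 2) = ⌊2 * T⌋₊ := by
      rw [hN, Nat.card_Icc]
      omega
    have h2 : (N.card : ℝ) + (⌊T⌋₊ + 2) = ⌊2 * T⌋₊ := by exact_mod_cast h1
    linarith
  set G := N.filter fun n : ℕ => ∃ x : ℝ, |x - n| ≤ 1 / 4 ∧ iteratedDeriv k (FT Ph) x = 0 with hG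
  set Bd := N.filter fun n : ℕ => ¬ ∃ x : ℝ, |x - n| ≤ 1 / 4 ∧ iteratedDeriv k (FT Ph) x = 0 with hBd
  have hsplit0 : G.card + Bd.card = N.card := by
    rw [hG, hBd]
    exact Finset.card_filter_add_card_filter_not
      (fun n : ℕ => ∃ x : ℝ, |x - n| ≤ 1 / 4 ∧ iteratedDeriv k (FT Ph) x = 0)
  have hsplit : (N.card : ℝ) = G.card + Bd.card := by
    rw [← hsplit0]
    push_cast
    ring
  have hlog2T0 : 0 ≤ Real.log (2 * T) := Real.log_nonneg (by linarith)
  have hBcard : (Bd.card : ℝ) ≤ T / 4 := by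
    have h1 := card_bad (T := T) (H := 2 * Real.log (2 * T)) (by linarith) (1 / 2 + 1 / 1000) Bd
      (fun n hn => by
        rw [hBd, Finset.mem_filter] at hn
        have h2 := hNmem n hn.1
        rcases key n (by linarith [h2.1]) (by linarith [h2.2]) with h3 | h3
        · exact h3
        · exact absurd h3 hn.2)
    have h2 : Nz (1 / 2 + 1 / 1000) (3 * T) ≤
        C * (3 * T) ^ (1 - 1 * ((1 / 2 + 1 / 1000 : ℝ) - 1 / 2)) * Real.log (3 * T) :=
      (Nz_le _ (3 * T)).trans (hden _ (3 * T) (by norm_num) (by norm_num) (by linarith)).2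
    have e1 : (1 - 1 * ((1 / 2 + 1 / 1000 : ℝ) - 1 / 2)) = 999 / 1000 := by norm_num
    rw [e1] at h2
    have h3 := hbig T hTT3
    rw [Real.rpow_one] at h3
    have hl1 := one_le_log (by linarith : 1 ≤ T)
    have hl2 : Real.log (2 * T) ≤ Real.log (3 * T) :=
      Real.log_le_log (by linarith) (by linarith)
    have h4 : 2 * (2 * Real.log (2 * T)) + 1 ≤ 5 * Real.log (3 * T) := by linarith
    have h5 : 0 ≤ C * (3 * T) ^ (999 / 1000 : ℝ) * Real.log (3 * T) :=
      mul_nonneg (mul_nonneg hC.le (Real.rpow_nonneg (by linarith) _)) (by linarith)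
    have h6 := mul_le_mul h2 h4 (by linarith) h5
    have e2 : C * (3 * T) ^ (999 / 1000 : ℝ) * Real.log (3 * T) * (5 * Real.log (3 * T)) =
        (20 * C * (3 * T) ^ (999 / 1000 : ℝ) * Real.log (3 * T) ^ 2) / 4 := by ring
    rw [e2] at h6
    linarith
  have hGcard := card_good hTp.le k G (fun n hn => by
    rw [hG, Finset.mem_filter] at hn
    have h2 := hNmem n hn.1
    exact ⟨h2.1, h2.2, hn.2⟩)
  linarith

end

end Pool.Agent.H189.EF
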